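import Pool.Agent.L7h86.KV.Rep

set_option autoImplicit false

namespace Pool.Agent.L7h86.KV

open Finset

/-- valuations above `p` -/
lemma exists_val (p : ℕ) (hp : p.Prime) : ∃ R : ValuationSubring ℂ, R.valuation (p : ℂ) < 1 := by
  set Z : Subring ℂ := (Int.castRingHom ℂ).range with hZ
  have hpm : (p : ℂ) ∈ Z := ⟨(p : ℤ), by simp⟩
  have hI : Ideal.span ({(⟨(p : ℂ), hpm⟩ : Z)} : Set Z) ≠ ⊤ := by
    rw [Ne, Ideal.span_singleton_eq_top]
    intro hu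
    obtain ⟨⟨b, hb⟩, hb'⟩ := hu.exists_right_inv
    obtain ⟨c, rfl⟩ := hb
    have h1 := congrArg (fun x : Z => (x : ℂ)) hb'
    simp only [Subring.coe_mul, Subring.coe_one, eq_intCast] at h1
    have h2 : (p : ℤ) * c = 1 := by exact_mod_cast h1
    have h3 : (p : ℤ) ∣ 1 := ⟨c, h2.symm⟩
    have h4 : p ∣ 1 := by exact_mod_cast h3
    exact hp.one_lt.ne' (Nat.dvd_one.1 h4)
  obtain ⟨B, _, hB⟩ := Ideal.image_subset_nonunits_valuationSubring _ hI
  refine ⟨B, ?_⟩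
  have h5 : (p : ℂ) ∈ B.nonunits := hB ⟨⟨(p : ℂ), hpm⟩, Ideal.subset_span rfl, rfl⟩
  exact h5

variable {R : ValuationSubring ℂ}

lemma val_nat (k : ℕ) : R.valuation (k : ℂ) ≤ 1 :=
  (R.valuation_le_one_iff _).2 (natCast_mem R k)

lemma val_int (k : ℤ) : R.valuation (k : ℂ) ≤ 1 :=
  (R.valuation_le_one_iff _).2 (intCast_mem R k)

lemma dvd_of_val {p : ℕ} (hp : p.Prime) (hR : R.valuation (p : ℂ) < 1) (k : ℤ)
    (hk : R.valuation (k : ℂ) < 1) : (p : ℤ) ∣ k := by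
  by_contra h
  have h1 : IsCoprime (p : ℤ) k := (Prime.coprime_iff_not_dvd (Nat.prime_iff_prime_int.1 hp)).2 h
  obtain ⟨a, b, hab⟩ := h1
  have h2 : (1 : ℂ) = (a : ℂ) * (p : ℂ) + (b : ℂ) * (k : ℂ) := by exact_mod_cast hab.symm
  have h3 : R.valuation (1 : ℂ) < 1 := by
    rw [h2]
    exact Valuation.map_add_lt _ (mul_lt' (val_int a) hR) (mul_lt' (val_int b) hk)
  rw [map_one] at h3
  exact lt_irrefl _ h3

lemma val_coprime {p m : ℕ} (hp : p.Prime) (hR : R.valuation (p : ℂ) < 1) (hm : ¬ p ∣ m) :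
    R.valuation (m : ℂ) = 1 := by
  refine le_antisymm (val_nat m) ?_
  by_contra h
  push Not at h
  have h1 := dvd_of_val hp hR (m : ℤ) (by simpa using h)
  exact hm (by exact_mod_cast h1)

lemma val_root {x : ℂ} {k : ℕ} (hk : 0 < k) (hx : x ^ k = 1) : R.valuation x = 1 := by
  have h1 : R.valuation x ^ k = 1 := by rw [← map_pow, hx, map_one]
  exact (pow_eq_one_iff.1 h1).resolve_right hk.ne'

/-- roots of unity of `p`-power order are congruent to one -/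
lemma cg_one {p : ℕ} (hp : p.Prime) (hR : R.valuation (p : ℂ) < 1) {x : ℂ} {r : ℕ}
    (hx : x ^ (p ^ r) = 1) : Cg R x 1 := by
  have hx1 : R.valuation x = 1 := val_root (pow_pos hp.pos r) hx
  have hxR : x ∈ R := (R.valuation_le_one_iff _).1 hx1.le
  refine ⟨hx1.le, by simp, ?_⟩
  have := Fact.mk hp
  have hpR : ((p : ℕ) : IsLocalRing.ResidueField R) = 0 := by
    have h1 : IsLocalRing.residue R ((p : ℕ) : R) = 0 := by
      rw [IsLocalRing.residue_eq_zero_iff, R.valuation_lt_one_iff]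
      simpa using hR
    rw [map_natCast] at h1
    exact h1
  have : CharP (IsLocalRing.ResidueField R) p := (CharP.charP_iff_prime_eq_zero hp).2 hpR
  set y : R := ⟨x, hxR⟩ with hy
  have h2 : y ^ (p ^ r) = 1 := by
    apply Subtype.ext
    simpa [hy] using hx
  have h3 : (IsLocalRing.residue R y - 1) ^ (p ^ r) = 0 := by
    rw [sub_pow_char_pow, ← map_pow, h2, map_one, one_pow, sub_self]
  have h4 : IsLocalRing.residue R y - 1 = 0 := by
    exact (pow_eq_zero_iff (pow_pos hp.pos r).ne').1 h3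
  rw [← map_one (IsLocalRing.residue R), ← map_sub, IsLocalRing.residue_eq_zero_iff,
    R.valuation_lt_one_iff] at h4
  simpa [hy] using h4

/-- roots of unity of order prime to `p` are not congruent to one -/
lemma unit_sub_one {m : ℕ} (hm : R.valuation (m : ℂ) = 1) {y : ℂ} (hy : y ^ m = 1) (hm0 : 0 < m)
    (hy1 : y ≠ 1) : R.valuation (y - 1) = 1 := by
  have hv := val_root (R := R) hm0 hy
  refine le_antisymm ((Cg.rfl' hv.le).sub (Cg.rfl' (x := (1 : ℂ)) (by simp))).1 ?_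
  by_contra h
  push Not at h
  have h1 : Cg R y 1 := ⟨hv.le, by simp, h⟩
  have h2 : Cg R (∑ i ∈ range m, y ^ i) (∑ i ∈ range m, (1 : ℂ) ^ i) :=
    Cg.sum fun i _ => h1.pow i
  have h3 : ∑ i ∈ range m, y ^ i = 0 := by
    have h4 := geom_sum_mul y m
    rw [hy, sub_self] at h4
    exact (mul_eq_zero.1 h4).resolve_right (sub_ne_zero.2 hy1)
  rw [h3] at h2
  simp only [one_pow, Finset.sum_const, Finset.card_range, nsmul_eq_mul, mul_one] at h2
  have h5 := h2.symm.lt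
  rw [hm] at h5
  exact lt_irrefl _ h5

/-- `v = exp (π i j / N)` with `j` odd and prime to `N` -/
def IsRootN (N : ℕ) (v : ℂ) : Prop := v ^ N = -1 ∧ IsPrimitiveRoot (v ^ 2) N

lemma br_ne' {N : ℕ} {v : ℂ} (hv0 : v ≠ 0) (h : IsPrimitiveRoot (v ^ 2) N) (j : ℕ) (h0 : 0 < j)
    (hj : j < N) : br v (j : ℤ) = v ^ (-(j : ℤ)) * ((v ^ 2) ^ j - 1) ∧ (v ^ 2) ^ j ≠ 1 := by
  refine ⟨?_, h.pow_ne_one_of_pos_of_lt h0.ne' hj⟩
  unfold br
  rw [mul_sub, mul_one, ← pow_mul, ← zpow_natCast v (2 * j), ← zpow_add₀ hv0]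
  congr 2
  push_cast
  ring

lemma crt_exp {p m r : ℕ} (hp : p.Prime) (hpm : ¬ p ∣ m) (hm : 0 < m) :
    ∃ c' : ℕ, Odd c' ∧ c'.Coprime m ∧ ∃ s : ℕ,
      (2 * (p ^ r * m)) ∣ (p ^ r * c' - 1) * p ^ s ∧ 1 ≤ p ^ r * c' := by
  rcases hp.eq_two_or_odd' with rfl | hodd
  · -- `p = 2`, `m` odd
    have hmo : Odd m := by
      rw [← Nat.not_even_iff_odd, even_iff_two_dvd]; exact hpm
    have hco : Nat.Coprime (2 ^ (r + 1)) m := (Nat.coprime_pow_left_iff (by omega) _ _).2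
      ((Nat.Prime.coprime_iff_not_dvd Nat.prime_two).2 hpm)
    obtain ⟨c, hc1, hc2⟩ := Nat.chineseRemainder hco (2 ^ r) 1
    have hc3 : 2 ^ r ∣ c := by
      have h1 : c ≡ 2 ^ r [MOD 2 ^ r] := hc1.of_dvd ⟨2, by rw [pow_succ]⟩
      have h2 : c ≡ 0 [MOD 2 ^ r] := h1.trans (by simp [Nat.ModEq])
      exact (Nat.modEq_zero_iff_dvd).1 h2
    obtain ⟨c', rfl⟩ := hc3
    have hodd : Odd c' := by
      have h1 : 2 ^ r * c' ≡ 2 ^ r * 1 [MOD 2 ^ r * 2] := by rw [mul_one, ← pow_succ]; exact hc1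
      have h2 := Nat.ModEq.mul_left_cancel' (pow_ne_zero r two_ne_zero) h1
      rw [Nat.odd_iff]
      exact h2
    have hpos : 1 ≤ 2 ^ r * c' := Nat.mul_pos (pow_pos two_pos r) hodd.pos
    have hcop : c'.Coprime m := by
      have h1 : Nat.Coprime (2 ^ r * c') m := by
        rw [Nat.Coprime, Nat.ModEq.gcd_eq hc2]
        simp
      exact Nat.Coprime.coprime_dvd_left (Dvd.intro_left _ rfl) h1
    refine ⟨c', hodd, hcop, r + 1, ?_, hpos⟩
    have h3 : m ∣ 2 ^ r * c' - 1 := (Nat.modEq_iff_dvd' hpos).1 hc2.symm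
    obtain ⟨d, hd⟩ := h3
    rw [hd]
    exact ⟨d, by ring⟩
  · have hco : Nat.Coprime (p ^ r) (2 * m) := by
      refine Nat.Coprime.pow_left _ ((Nat.Prime.coprime_iff_not_dvd hp).2 fun h => ?_)
      rcases (Nat.Prime.dvd_mul hp).1 h with h | h
      · have := (Nat.prime_dvd_prime_iff_eq hp Nat.prime_two).1 h
        rw [this] at hodd
        exact absurd hodd (by decide)
      · exact hpm h
    obtain ⟨c, hc1, hc2⟩ := Nat.chineseRemainder hco 0 1
    obtain ⟨c', rfl⟩ := (Nat.modEq_zero_iff_dvd).1 hc1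
    have h1 : Nat.Coprime (p ^ r * c') (2 * m) := by
      rw [Nat.Coprime, Nat.ModEq.gcd_eq hc2]
      simp
    have h2 : Nat.Coprime c' (2 * m) := Nat.Coprime.coprime_dvd_left (Dvd.intro_left _ rfl) h1
    have hodd' : Odd c' := by
      have h3 : Nat.Coprime c' 2 := Nat.Coprime.coprime_dvd_right (Dvd.intro _ rfl) h2
      exact (Nat.coprime_two_right).1 h3
    have hpos : 1 ≤ p ^ r * c' := Nat.mul_pos (pow_pos hp.pos r) hodd'.pos
    refine ⟨c', hodd', Nat.Coprime.coprime_dvd_right (Dvd.intro_left _ rfl) h2, r, ?_, hpos⟩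
    obtain ⟨d, hd⟩ := (Nat.modEq_iff_dvd' hpos).1 hc2.symm
    rw [hd]
    exact ⟨d, by ring⟩

/-- the situation for `N = p^r m` -/
theorem setup {p m r : ℕ} (hp : p.Prime) (hpm : ¬ p ∣ m) (hm : 0 < m) {v : ℂ}
    (hv : IsRootN (p ^ r * m) v) : ∃ c : ℕ, IsRootN m (v ^ c) ∧ c.Coprime m ∧
      ∀ R : ValuationSubring ℂ, R.valuation (p : ℂ) < 1 → Setup R (p ^ r * m) m v (v ^ c) := by
  obtain ⟨c', hodd, hcop, s, hs, hpos⟩ := crt_exp (r := r) hp hpm hm
  have hN : 0 < p ^ r * m := Nat.mul_pos (pow_pos hp.pos r) hm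
  have h2N : v ^ (2 * (p ^ r * m)) = 1 := by
    rw [mul_comm, pow_mul, hv.1]; norm_num
  have hc1 : (v ^ (p ^ r * c')) ^ m = -1 := by
    rw [← pow_mul, show p ^ r * c' * m = p ^ r * m * c' by ring, pow_mul, hv.1, hodd.neg_one_pow]
  have hc2 : IsPrimitiveRoot ((v ^ (p ^ r * c')) ^ 2) m := by
    have h1 := (hv.2.pow hN rfl).pow_of_coprime c' hcop
    have h2 : ((v ^ 2) ^ p ^ r) ^ c' = (v ^ (p ^ r * c')) ^ 2 := by
      rw [← pow_mul, ← pow_mul, ← pow_mul]; congr 1; ring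
    rwa [h2] at h1
  have hcm : (p ^ r * c').Coprime m :=
    Nat.Coprime.mul_left (Nat.Coprime.pow_left _ ((Nat.Prime.coprime_iff_not_dvd hp).2 hpm)) hcop
  refine ⟨p ^ r * c', ⟨hc1, hc2⟩, hcm, fun R hR => ?_⟩
  have hvv : R.valuation v = 1 := val_root (by omega) h2N
  have hv0 : v ≠ 0 := fun h0 => by rw [h0, map_zero] at hvv; exact zero_ne_one hvv
  have hvc0 : v ^ (p ^ r * c') ≠ 0 := pow_ne_zero _ hv0
  have hvc : R.valuation (v ^ (p ^ r * c')) = 1 := val_pow hvv _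
  have hcg : Cg R (v ^ (p ^ r * c')) v := by
    have h1 : v ^ (p ^ r * c') = v ^ (p ^ r * c' - 1) * v := by
      rw [← pow_succ, Nat.sub_add_cancel hpos]
    have h2 : (v ^ (p ^ r * c' - 1)) ^ (p ^ s) = 1 := by
      rw [← pow_mul]
      obtain ⟨d, hd⟩ := hs
      rw [hd, pow_mul, h2N, one_pow]
    have h3 := (cg_one hp hR h2).mul (Cg.rfl' hvv.le)
    rw [one_mul, ← h1] at h3
    exact h3
  refine ⟨hm, hN, Dvd.intro_left _ rfl, hvv, hvc, hcg.symm, ?_, ?_, ?_, ?_⟩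
  · refine cg_one (r := r) hp hR ?_
    rw [← pow_mul, show 2 * m * p ^ r = 2 * (p ^ r * m) by ring, h2N]
  · rw [hv.1, hc1]
    exact Cg.rfl' (by rw [Valuation.map_neg, map_one])
  · intro j h0 hj
    obtain ⟨e1, e2⟩ := br_ne' hvc0 hc2 j h0 hj
    rw [e1, map_mul, val_zpow hvc, one_mul]
    refine unit_sub_one (val_coprime hp hR hpm) ?_ hm e2
    rw [← pow_mul, mul_comm j m, pow_mul, hc2.pow_eq_one, one_pow]
  · intro j h0 hj
    obtain ⟨e1, e2⟩ := br_ne' hv0 hv.2 j h0 hj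
    rw [e1]
    exact mul_ne_zero (zpow_ne_zero _ hv0) (sub_ne_zero.2 e2)

/-- **the congruence** -/
theorem congruence {p m r : ℕ} (hp : p.Prime) (hpm : ¬ p ∣ m) (hm : 0 < m) {v : ℂ}
    (hv : IsRootN (p ^ r * m) v) (n : ℕ) (w : List (ℕ × Bool)) (hk : IsKnot n w) :
    ∃ c : ℕ, IsRootN m (v ^ c) ∧ c.Coprime m ∧
      ∀ R : ValuationSubring ℂ, R.valuation (p : ℂ) < 1 →
        Cg R (cjones (p ^ r * m) n w v) (cjones m n w (v ^ c)) := by
  obtain ⟨c, h1, h2, h3⟩ := setup hp hpm hm hv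
  exact ⟨c, h1, h2, fun R hR => cjones_cg (h3 R hR) n w hk⟩

end Pool.Agent.L7h86.KV
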