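import Mathlib

set_option autoImplicit false

namespace Pool.Agent.L7h86.KV

open Finset

section defs

variable {F : Type} [Field F]

/-- `{n} = v^n - v^{-n}` -/
noncomputable def br (v : F) (n : ℤ) : F := v ^ n - v ^ (-n)

/-- `{n}! = {1} {2} ⋯ {n}` -/
noncomputable def brf (v : F) (n : ℕ) : F := ∏ j ∈ range n, br v ((j : ℤ) + 1)

/-- The positive crossing: the R-matrix of `U_q(sl_2)` on `V_N ⊗ V_N`, `V_N` with basis
`e_0, …, e_{N-1}`, times the framing factor `v^{-(N^2-1)/2}`; `crossP N v p q` is the coefficient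
of `e_{p.1} ⊗ e_{p.2}` in the image of `e_{q.1} ⊗ e_{q.2}`:
`e_i ⊗ e_j ↦ ∑_n v^{-(N-1)(1+i+j) + 2(i-n)(j+n) + n(n-1)/2}
({j+n}! / ({j}! {n}!)) ∏_{t<n} {N-i+t} e_{j+n} ⊗ e_{i-n}`. The definitions of this section are
those of the starting file `Results/MP_b30479_gt/TurkHeadOdd.lean` (there over the complex
numbers, here over any field). -/
noncomputable def crossP (N : ℕ) (v : F) : Matrix (Fin N × Fin N) (Fin N × Fin N) F :=
  fun p q => if (p.1 : ℕ) + p.2 = q.1 + q.2 ∧ (q.2 : ℕ) ≤ p.1 then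
    v ^ (-((N : ℤ) - 1) * (1 + (q.1 : ℕ) + (q.2 : ℕ)) + 2 * (p.1 : ℕ) * (p.2 : ℕ)) *
      v ^ (((p.1 : ℕ) - q.2) * ((p.1 : ℕ) - q.2 - 1) / 2) *
      (brf v p.1 / (brf v q.2 * brf v ((p.1 : ℕ) - q.2))) *
      ∏ t ∈ range ((p.1 : ℕ) - q.2), br v ((N : ℤ) - (q.1 : ℕ) + t)
    else 0

/-- The negative crossing, inverse of `crossP N v`:
`e_i ⊗ e_j ↦ ∑_n (-1)^n v^{(N-1)(1+i+j) - 2ij - n(n-1)/2}
({i+n}! / ({i}! {n}!)) ∏_{t<n} {N-j+t} e_{j-n} ⊗ e_{i+n}`. -/
noncomputable def crossN (N : ℕ) (v : F) : Matrix (Fin N × Fin N) (Fin N × Fin N) F :=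
  fun p q => if (p.1 : ℕ) + p.2 = q.1 + q.2 ∧ (q.1 : ℕ) ≤ p.2 then
    (-1) ^ ((p.2 : ℕ) - q.1) *
      v ^ (((N : ℤ) - 1) * (1 + (q.1 : ℕ) + (q.2 : ℕ)) - 2 * (q.1 : ℕ) * (q.2 : ℕ)) /
      v ^ (((p.2 : ℕ) - q.1) * ((p.2 : ℕ) - q.1 - 1) / 2) *
      (brf v p.2 / (brf v q.1 * brf v ((p.2 : ℕ) - q.1))) *
      ∏ t ∈ range ((p.2 : ℕ) - q.1), br v ((N : ℤ) - (q.2 : ℕ) + t)
    else 0

/-- The braid generator `s_k` on `n` strands (it acts on the strands number `k` and `k + 1`,
counted from `0`) by the crossing matrix `A`. -/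
def gen {ι : Type} [DecidableEq ι] (A : Matrix (ι × ι) (ι × ι) F) (n k : ℕ) :
    Matrix (Fin n → ι) (Fin n → ι) F :=
  fun s t => if h : k + 1 < n then
    (if ∀ j : Fin n, (j : ℕ) ≠ k → (j : ℕ) ≠ k + 1 → s j = t j then
      A (s ⟨k, by omega⟩, s ⟨k + 1, h⟩) (t ⟨k, by omega⟩, t ⟨k + 1, h⟩) else 0)
    else (if s = t then 1 else 0)

/-- The operator of a braid word on `n` strands: the letter `(k, true)` is `s_k`, the letter
`(k, false)` is its inverse; `P` and `Q` are the matrices of the two crossings. -/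
def rep {ι : Type} [Fintype ι] [DecidableEq ι] (P Q : Matrix (ι × ι) (ι × ι) F) (n : ℕ)
    (w : List (ℕ × Bool)) : Matrix (Fin n → ι) (Fin n → ι) F :=
  (w.map fun g => gen (if g.2 then P else Q) n g.1).prod

/-- The partial trace over all strands but the first one, with weights `k`; `n + 1` strands. -/
def tail {ι : Type} [Fintype ι] (k : ι → F) (n : ℕ)
    (A : Matrix (Fin (n + 1) → ι) (Fin (n + 1) → ι) F) : Matrix ι ι F :=
  fun i j => ∑ s : Fin n → ι, (∏ x, k (s x)) * A (Fin.cons i s) (Fin.cons j s)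

/-- The `N`-coloured Jones polynomial (unknot `= 1`) of the closure of the braid word `w` on
`n + 1` strands, at `q = v^2`: the entry at the highest weight vector `e_0` of the partial quantum
trace, with the weights `v^{N-1-2x}` of `K`. -/
noncomputable def cjones (N n : ℕ) (w : List (ℕ × Bool)) (v : F) : F :=
  if h : 0 < N then
    tail (fun x : Fin N => v ^ ((N : ℤ) - 1 - 2 * (x : ℕ))) n
      (rep (crossP N v) (crossN N v) (n + 1) w) ⟨0, h⟩ ⟨0, h⟩ else 0

/-- The transposition of the strands `k` and `k + 1` of `n` strands. -/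
def swapk (n k : ℕ) : Equiv.Perm (Fin n) :=
  if h : k + 1 < n then Equiv.swap ⟨k, by omega⟩ ⟨k + 1, h⟩ else 1

/-- The permutation of a braid word on `n` strands. -/
def perm (n : ℕ) (w : List (ℕ × Bool)) : Equiv.Perm (Fin n) := (w.map fun g => swapk n g.1).prod

/-- The closure of the braid word `w` on `n + 1` strands is a knot: its permutation has only one
cycle, that is, the orbit of the first strand consists of all strands. (By Alexander's theorem
every knot is the closure of such a braid.) -/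
def IsKnot (n : ℕ) (w : List (ℕ × Bool)) : Prop :=
  ∀ x : Fin (n + 1), ∃ k : ℕ, (perm (n + 1) w ^ k) 0 = x

end defs

/-! ### congruences -/

section cong

variable {F : Type} [Field F] (R : ValuationSubring F)

/-- congruence modulo the maximal ideal of `R` -/
def Cg (x y : F) : Prop :=
  R.valuation x ≤ 1 ∧ R.valuation y ≤ 1 ∧ R.valuation (x - y) < 1

variable {R}

lemma vmul {a b : R.ValueGroup} (ha : a ≤ 1) (hb : b < 1) : a * b < 1 :=
  (mul_le_mul' ha (le_refl b)).trans_lt (by rwa [one_mul])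

lemma Cg.rfl' {x : F} (h : R.valuation x ≤ 1) : Cg R x x := ⟨h, h, by simp⟩

lemma Cg.symm {x y : F} (h : Cg R x y) : Cg R y x :=
  ⟨h.2.1, h.1, by rw [Valuation.map_sub_swap]; exact h.2.2⟩

lemma Cg.trans {x y z : F} (h : Cg R x y) (h' : Cg R y z) : Cg R x z :=
  ⟨h.1, h'.2.1, by
    have : x - z = (x - y) + (y - z) := by ring
    rw [this]
    exact Valuation.map_add_lt _ h.2.2 h'.2.2⟩

lemma Cg.add {x y x' y' : F} (h : Cg R x y) (h' : Cg R x' y') : Cg R (x + x') (y + y') :=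
  ⟨Valuation.map_add_le _ h.1 h'.1, Valuation.map_add_le _ h.2.1 h'.2.1, by
    have : (x + x') - (y + y') = (x - y) + (x' - y') := by ring
    rw [this]
    exact Valuation.map_add_lt _ h.2.2 h'.2.2⟩

lemma Cg.mul {x y x' y' : F} (h : Cg R x y) (h' : Cg R x' y') : Cg R (x * x') (y * y') :=
  ⟨by rw [map_mul]; exact mul_le_one' h.1 h'.1, by rw [map_mul]; exact mul_le_one' h.2.1 h'.2.1, by
    have : (x * x') - (y * y') = x * (x' - y') + (x - y) * y' := by ring
    rw [this]
    refine Valuation.map_add_lt _ ?_ ?_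
    · rw [map_mul]; exact vmul h.1 h'.2.2
    · rw [map_mul, mul_comm]; exact vmul h'.2.1 h.2.2⟩

lemma Cg.neg {x y : F} (h : Cg R x y) : Cg R (-x) (-y) :=
  ⟨by rw [Valuation.map_neg]; exact h.1, by rw [Valuation.map_neg]; exact h.2.1, by
    have : -x - -y = -(x - y) := by ring
    rw [this, Valuation.map_neg]; exact h.2.2⟩

lemma Cg.sub {x y x' y' : F} (h : Cg R x y) (h' : Cg R x' y') : Cg R (x - x') (y - y') := by
  rw [sub_eq_add_neg, sub_eq_add_neg]
  exact h.add h'.neg

lemma Cg.sum {ι : Type} {s : Finset ι} {f g : ι → F} (h : ∀ i ∈ s, Cg R (f i) (g i)) :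
    Cg R (∑ i ∈ s, f i) (∑ i ∈ s, g i) := by
  classical
  induction s using Finset.induction_on with
  | empty => simp only [Finset.sum_empty]; exact Cg.rfl' (by simp)
  | insert a s ha ih =>
    rw [Finset.sum_insert ha, Finset.sum_insert ha]
    exact (h a (Finset.mem_insert_self _ _)).add
      (ih fun i hi => h i (Finset.mem_insert_of_mem hi))

lemma Cg.prod {ι : Type} {s : Finset ι} {f g : ι → F} (h : ∀ i ∈ s, Cg R (f i) (g i)) :
    Cg R (∏ i ∈ s, f i) (∏ i ∈ s, g i) := by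
  classical
  induction s using Finset.induction_on with
  | empty => simp only [Finset.prod_empty]; exact Cg.rfl' (by simp)
  | insert a s ha ih =>
    rw [Finset.prod_insert ha, Finset.prod_insert ha]
    exact (h a (Finset.mem_insert_self _ _)).mul
      (ih fun i hi => h i (Finset.mem_insert_of_mem hi))

lemma Cg.zero {x : F} (h : R.valuation x < 1) : Cg R x 0 :=
  ⟨h.le, by simp, by simpa using h⟩

lemma Cg.lt {x : F} (h : Cg R x 0) : R.valuation x < 1 := by simpa using h.2.2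

lemma Cg.one_val {x y : F} (h : Cg R x y) (hy : R.valuation y = 1) : R.valuation x = 1 := by
  refine le_antisymm h.1 ?_
  by_contra hx
  push Not at hx
  have h2 := Valuation.map_sub_lt R.valuation hx h.2.2
  have h3 : x - (x - y) = y := by ring
  rw [h3, hy] at h2
  exact lt_irrefl _ h2

lemma Cg.inv {x y : F} (h : Cg R x y) (hy : R.valuation y = 1) : Cg R x⁻¹ y⁻¹ := by
  have hx := h.one_val hy
  refine ⟨by rw [map_inv₀, hx, inv_one], by rw [map_inv₀, hy, inv_one], ?_⟩
  have hx0 : x ≠ 0 := fun h0 => by rw [h0, map_zero] at hx; exact zero_ne_one hx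
  have hy0 : y ≠ 0 := fun h0 => by rw [h0, map_zero] at hy; exact zero_ne_one hy
  have : x⁻¹ - y⁻¹ = (y - x) * (x⁻¹ * y⁻¹) := by field_simp
  rw [this, map_mul, map_mul, map_inv₀, map_inv₀, hx, hy, Valuation.map_sub_swap]
  simpa using h.2.2

lemma Cg.div {x y x' y' : F} (h : Cg R x y) (h' : Cg R x' y') (hy : R.valuation y' = 1) :
    Cg R (x / x') (y / y') := by
  rw [div_eq_mul_inv, div_eq_mul_inv]
  exact h.mul (h'.inv hy)

lemma Cg.pow {x y : F} (h : Cg R x y) (k : ℕ) : Cg R (x ^ k) (y ^ k) := by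
  induction k with
  | zero => rw [pow_zero, pow_zero]; exact Cg.rfl' (by simp)
  | succ k ih => rw [pow_succ, pow_succ]; exact ih.mul h

lemma Cg.zpow {x y : F} (h : Cg R x y) (hy : R.valuation y = 1) (k : ℤ) :
    Cg R (x ^ k) (y ^ k) := by
  cases k with
  | ofNat k => simpa using h.pow k
  | negSucc k =>
    rw [zpow_negSucc, zpow_negSucc]
    exact (h.pow _).inv (by rw [map_pow, hy, one_pow])

end cong

end Pool.Agent.L7h86.KV
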