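import Pool.Agent.L7h86.KV.Core

set_option autoImplicit false

namespace Pool.Agent.L7h86.KV

open Finset

variable {F : Type} [Field F] {R : ValuationSubring F}

lemma mul_lt' {x y : F} (hx : R.valuation x ≤ 1) (hy : R.valuation y < 1) :
    R.valuation (x * y) < 1 := by
  rw [map_mul]; exact vmul hx hy

lemma mul_le' {x y : F} (hx : R.valuation x ≤ 1) (hy : R.valuation y ≤ 1) :
    R.valuation (x * y) ≤ 1 := by
  rw [map_mul]; exact mul_le_one' hx hy

lemma val_zpow {v : F} (hv : R.valuation v = 1) (k : ℤ) : R.valuation (v ^ k) = 1 := by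
  rw [map_zpow₀, hv, one_zpow]

lemma val_pow {v : F} (hv : R.valuation v = 1) (k : ℕ) : R.valuation (v ^ k) = 1 := by
  rw [map_pow, hv, one_pow]

lemma prod_le {ι : Type} {s : Finset ι} {f : ι → F} (h : ∀ i ∈ s, R.valuation (f i) ≤ 1) :
    R.valuation (∏ i ∈ s, f i) ≤ 1 :=
  (Cg.prod (R := R) (f := f) (g := f) fun i hi => Cg.rfl' (h i hi)).1

lemma prod_lt {ι : Type} [DecidableEq ι] {s : Finset ι} {f : ι → F}
    (h : ∀ i ∈ s, R.valuation (f i) ≤ 1)
    {a : ι} (ha : a ∈ s) (h' : R.valuation (f a) < 1) : R.valuation (∏ i ∈ s, f i) < 1 := by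
  rw [← Finset.mul_prod_erase s f ha, mul_comm]
  exact mul_lt' (prod_le fun i hi => h i (Finset.mem_of_mem_erase hi)) h'

lemma br_cg {v v' : F} (h : Cg R v v') (hv' : R.valuation v' = 1) (k : ℤ) :
    Cg R (br v k) (br v' k) := (h.zpow hv' k).sub (h.zpow hv' (-k))

lemma br_int {v : F} (hv : R.valuation v = 1) (k : ℤ) : R.valuation (br v k) ≤ 1 :=
  (br_cg (Cg.rfl' hv.le) hv k).1

lemma br_zero {v : F} (hv : R.valuation v = 1) {m : ℕ} (hm : Cg R (v ^ (2 * m)) 1) (c : ℤ) :
    R.valuation (br v ((m : ℤ) * c)) < 1 := by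
  have hv0 : v ≠ 0 := fun h0 => by rw [h0, map_zero] at hv; exact zero_ne_one hv
  have h1 : br v ((m : ℤ) * c) = v ^ (-((m : ℤ) * c)) * ((v ^ (2 * m)) ^ c - 1) := by
    unfold br
    rw [mul_sub, mul_one, ← zpow_natCast, ← zpow_mul, ← zpow_add₀ hv0]
    congr 2
    push_cast
    ring
  rw [h1]
  refine mul_lt' (val_zpow hv _).le ?_
  have h2 := (hm.zpow (by simp) c).2.2
  rwa [one_zpow] at h2

lemma brf_zero (v : F) : brf v 0 = 1 := by simp [brf]

lemma brf_succ (v : F) (n : ℕ) : brf v (n + 1) = brf v n * br v ((n : ℤ) + 1) := by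
  unfold brf; rw [Finset.prod_range_succ]

lemma brf_add (v : F) (a n : ℕ) :
    brf v (a + n) = brf v a * ∏ j ∈ range n, br v ((a : ℤ) + j + 1) := by
  unfold brf
  rw [Finset.prod_range_add]
  congr 1

lemma brf_ne {v : F} {N : ℕ} (nz : ∀ j : ℕ, 0 < j → j < N → br v j ≠ 0) {n : ℕ} (hn : n < N) :
    brf v n ≠ 0 := by
  unfold brf
  refine Finset.prod_ne_zero_iff.2 fun j hj => ?_
  have := Finset.mem_range.1 hj
  have h := nz (j + 1) (by omega) (by omega)
  push_cast at h
  exact h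

lemma qb_int {v : F} (hv : R.valuation v = 1) {N : ℕ}
    (nz : ∀ j : ℕ, 0 < j → j < N → br v j ≠ 0) :
    ∀ s a b : ℕ, a + b = s → s < N → R.valuation (brf v (a + b) / (brf v a * brf v b)) ≤ 1 := by
  intro s
  induction s with
  | zero =>
    intro a b h _
    obtain rfl : a = 0 := by omega
    obtain rfl : b = 0 := by omega
    simp [brf_zero]
  | succ s ih =>
    intro a b h hs
    rcases Nat.eq_zero_or_pos a with rfl | ha
    · rw [brf_zero, one_mul, zero_add, div_self (brf_ne nz (by omega))]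
      simp
    rcases Nat.eq_zero_or_pos b with rfl | hb
    · rw [brf_zero, mul_one, add_zero, div_self (brf_ne nz (by omega))]
      simp
    obtain ⟨a, rfl⟩ : ∃ a', a = a' + 1 := ⟨a - 1, by omega⟩
    obtain ⟨b, rfl⟩ : ∃ b', b = b' + 1 := ⟨b - 1, by omega⟩
    have hv0 : v ≠ 0 := fun h0 => by rw [h0, map_zero] at hv; exact zero_ne_one hv
    have e1 : brf v (a + 1 + (b + 1)) = brf v (a + b + 1) * br v ((a : ℤ) + b + 2) := by
      rw [show a + 1 + (b + 1) = (a + b + 1) + 1 by ring, brf_succ]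
      congr 2
    have e2 : br v ((a : ℤ) + b + 2) =
        v ^ (-((b : ℤ) + 1)) * br v ((a : ℤ) + 1) + v ^ ((a : ℤ) + 1) * br v ((b : ℤ) + 1) := by
      unfold br
      rw [mul_sub, mul_sub, ← zpow_add₀ hv0, ← zpow_add₀ hv0, ← zpow_add₀ hv0, ← zpow_add₀ hv0]
      rw [show -((b : ℤ) + 1) + -((a : ℤ) + 1) = -((a : ℤ) + b + 2) by ring,
        show (a : ℤ) + 1 + ((b : ℤ) + 1) = (a : ℤ) + b + 2 by ring,
        show -((b : ℤ) + 1) + ((a : ℤ) + 1) = (a : ℤ) + 1 + -((b : ℤ) + 1) by ring]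
      ring
    have n1 : brf v a ≠ 0 := brf_ne nz (by omega)
    have n2 : brf v b ≠ 0 := brf_ne nz (by omega)
    have n3 : br v ((a : ℤ) + 1) ≠ 0 := by
      have := nz (a + 1) (by omega) (by omega)
      push_cast at this
      exact this
    have n4 : br v ((b : ℤ) + 1) ≠ 0 := by
      have := nz (b + 1) (by omega) (by omega)
      push_cast at this
      exact this
    have e3 : brf v (a + 1 + (b + 1)) / (brf v (a + 1) * brf v (b + 1)) =
        v ^ (-((b : ℤ) + 1)) * (brf v (a + (b + 1)) / (brf v a * brf v (b + 1))) +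
        v ^ ((a : ℤ) + 1) * (brf v (a + 1 + b) / (brf v (a + 1) * brf v b)) := by
      rw [e1, e2, brf_succ v a, brf_succ v b, show a + (b + 1) = a + b + 1 by ring,
        show a + 1 + b = a + b + 1 by ring]
      generalize v ^ (-((b : ℤ) + 1)) = X
      generalize v ^ ((a : ℤ) + 1) = Y
      field_simp
    rw [e3]
    refine Valuation.map_add_le _ ?_ ?_
    · exact mul_le' (val_zpow hv _).le (ih a (b + 1) (by omega) (by omega))
    · exact mul_le' (val_zpow hv _).le (ih (a + 1) b (by omega) (by omega))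

/-- The situation. -/
structure Setup (R : ValuationSubring F) (N m : ℕ) (v v' : F) : Prop where
  hm : 0 < m
  hN : 0 < N
  dvd : m ∣ N
  v1 : R.valuation v = 1
  v1' : R.valuation v' = 1
  cg : Cg R v v'
  per : Cg R (v ^ (2 * m)) 1
  top : Cg R (v ^ N) (v' ^ m)
  unit : ∀ j : ℕ, 0 < j → j < m → R.valuation (br v' j) = 1
  nz : ∀ j : ℕ, 0 < j → j < N → br v j ≠ 0

/-- the main factor of a crossing -/
noncomputable def core (N : ℕ) (v : F) (a b n : ℕ) : F :=
  (brf v (a + n) / (brf v a * brf v n)) * ∏ t ∈ range n, br v ((N : ℤ) - b + t)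

variable {N m : ℕ} {v v' : F}

lemma Setup.brf_unit' (S : Setup R N m v v') {n : ℕ} (hn : n < m) :
    R.valuation (brf v' n) = 1 := by
  unfold brf
  rw [map_prod]
  refine Finset.prod_eq_one fun j hj => ?_
  have := Finset.mem_range.1 hj
  have h := S.unit (j + 1) (by omega) (by omega)
  push_cast at h
  exact h

lemma Setup.brf_cg (S : Setup R N m v v') (n : ℕ) : Cg R (brf v n) (brf v' n) :=
  Cg.prod fun j _ => br_cg S.cg S.v1' _

lemma Setup.brf_unit (S : Setup R N m v v') {n : ℕ} (hn : n < m) :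
    R.valuation (brf v n) = 1 := (S.brf_cg n).one_val (S.brf_unit' hn)

lemma core_int (S : Setup R N m v v') {a b n : ℕ} (han : a + n < N) :
    R.valuation (core N v a b n) ≤ 1 :=
  mul_le' (qb_int S.v1 S.nz (a + n) a n rfl han) (prod_le fun _ _ => br_int S.v1 _)

lemma core_lt (S : Setup R N m v v') {a b n : ℕ} (han : a + n < N) (hnb : n ≤ b)
    (h : ¬ ((a + n) / m = a / m ∧ (b - n) / m = b / m)) :
    R.valuation (core N v a b n) < 1 := by
  have hm := S.hm
  obtain ⟨c, hc⟩ := S.dvd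
  unfold core
  by_cases h1 : b % m < n
  · refine mul_lt' (qb_int S.v1 S.nz (a + n) a n rfl han)
      (prod_lt (fun _ _ => br_int S.v1 _) (Finset.mem_range.2 h1) ?_)
    have h2 : (N : ℤ) - b + ((b % m : ℕ) : ℤ) = (m : ℤ) * ((c : ℤ) - (b / m : ℕ)) := by
      have h3 := Nat.div_add_mod b m
      have h4 : (b : ℤ) = (m : ℤ) * ((b / m : ℕ) : ℤ) + ((b % m : ℕ) : ℤ) := by exact_mod_cast h3.symm
      rw [hc]
      push_cast at h4 ⊢
      linear_combination -h4
    rw [h2]
    exact br_zero S.v1 S.per _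
  · push Not at h1
    have hbn : (b - n) / m = b / m := by
      have h3 := Nat.div_add_mod b m
      have h5 : b - n = m * (b / m) + (b % m - n) := by omega
      rw [h5, Nat.mul_add_div hm]
      have : (b % m - n) / m = 0 := Nat.div_eq_of_lt (by have := Nat.mod_lt b hm; omega)
      omega
    have han' : (a + n) / m ≠ a / m := fun h2 => h ⟨h2, hbn⟩
    have hnm : n < m := by have := Nat.mod_lt b hm; omega
    have ham : m ≤ a % m + n := by
      by_contra h6
      push Not at h6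
      apply han'
      have h3 := Nat.div_add_mod a m
      have h5 : a + n = m * (a / m) + (a % m + n) := by omega
      rw [h5, Nat.mul_add_div hm, Nat.div_eq_of_lt h6]
      omega
    rw [mul_comm]
    refine mul_lt' (prod_le fun _ _ => br_int S.v1 _) ?_
    have hb0 : brf v a ≠ 0 := brf_ne S.nz (by omega)
    rw [brf_add, mul_div_mul_left _ _ hb0, map_div₀, S.brf_unit hnm, div_one]
    have hj : m - a % m - 1 ∈ range n := by
      have := Nat.mod_lt a hm
      rw [Finset.mem_range]; omega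
    refine prod_lt (fun _ _ => br_int S.v1 _) hj ?_
    have h7 : (a : ℤ) + ((m - a % m - 1 : ℕ) : ℤ) + 1 = (m : ℤ) * (((a / m : ℕ) : ℤ) + 1) := by
      have h3 := Nat.div_add_mod a m
      have h4 : (a : ℤ) = (m : ℤ) * ((a / m : ℕ) : ℤ) + ((a % m : ℕ) : ℤ) := by exact_mod_cast h3.symm
      have h8 : ((m - a % m - 1 : ℕ) : ℤ) = (m : ℤ) - ((a % m : ℕ) : ℤ) - 1 := by
        have := Nat.mod_lt a hm
        omega
      rw [h8]
      linear_combination h4
    rw [h7]
    exact br_zero S.v1 S.per _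

lemma Setup.br_shift (S : Setup R N m v v') (k : ℤ) :
    Cg R (br v ((N : ℤ) + k)) (br v' ((m : ℤ) + k)) := by
  have hv0 : v ≠ 0 := fun h0 => by have := S.v1; rw [h0, map_zero] at this; exact zero_ne_one this
  have hv0' : v' ≠ 0 := fun h0 => by
    have := S.v1'; rw [h0, map_zero] at this; exact zero_ne_one this
  unfold br
  rw [neg_add, neg_add, zpow_add₀ hv0, zpow_add₀ hv0', zpow_add₀ hv0, zpow_add₀ hv0']
  have h1 : Cg R (v ^ (N : ℤ)) (v' ^ (m : ℤ)) := by
    rw [zpow_natCast, zpow_natCast]; exact S.top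
  have h2 : Cg R (v ^ (-(N : ℤ))) (v' ^ (-(m : ℤ))) := by
    rw [zpow_neg, zpow_neg]
    exact h1.inv (val_zpow S.v1' _)
  exact (h1.mul (S.cg.zpow S.v1' _)).sub (h2.mul (S.cg.zpow S.v1' _))

lemma core_cg (S : Setup R N m v v') {a b n : ℕ} (han : a + n < m) :
    Cg R (core N v a b n) (core m v' a b n) := by
  unfold core
  refine Cg.mul ?_ (Cg.prod fun t _ => ?_)
  · refine (S.brf_cg _).div ((S.brf_cg _).mul (S.brf_cg _)) ?_
    rw [map_mul, S.brf_unit' (by omega), S.brf_unit' (by omega), one_mul]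
  · have h := S.br_shift (-(b : ℤ) + t)
    rw [← add_assoc, ← add_assoc, ← sub_eq_add_neg, ← sub_eq_add_neg] at h
    exact h

lemma Setup.expo (S : Setup R N m v v') (e f : ℤ) :
    Cg R (v ^ (-((N : ℤ) - 1) * e + f)) (v' ^ (-((m : ℤ) - 1) * e + f)) := by
  have hv0 : v ≠ 0 := fun h0 => by have := S.v1; rw [h0, map_zero] at this; exact zero_ne_one this
  have hv0' : v' ≠ 0 := fun h0 => by
    have := S.v1'; rw [h0, map_zero] at this; exact zero_ne_one this
  have e1 : v ^ (-((N : ℤ) - 1) * e + f) = (v ^ N) ^ (-e) * v ^ (e + f) := by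
    rw [← zpow_natCast, ← zpow_mul, ← zpow_add₀ hv0]
    congr 1
    ring
  have e2 : v' ^ (-((m : ℤ) - 1) * e + f) = (v' ^ m) ^ (-e) * v' ^ (e + f) := by
    rw [← zpow_natCast, ← zpow_mul, ← zpow_add₀ hv0']
    congr 1
    ring
  rw [e1, e2]
  exact (S.top.zpow (val_pow S.v1' _) _).mul (S.cg.zpow S.v1' _)

lemma crossP_form (N : ℕ) (v : F) (p q : Fin N × Fin N) : crossP N v p q =
    if (p.1 : ℕ) + p.2 = q.1 + q.2 ∧ (q.2 : ℕ) ≤ p.1 then
      (v ^ (-((N : ℤ) - 1) * (1 + (q.1 : ℕ) + (q.2 : ℕ)) + 2 * (p.1 : ℕ) * (p.2 : ℕ)) *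
        v ^ (((p.1 : ℕ) - q.2) * ((p.1 : ℕ) - q.2 - 1) / 2)) *
        core N v q.2 q.1 ((p.1 : ℕ) - q.2) else 0 := by
  unfold crossP core
  split_ifs with h
  · rw [Nat.add_sub_cancel' h.2]
    ring
  · rfl

lemma crossN_form (N : ℕ) (v : F) (p q : Fin N × Fin N) : crossN N v p q =
    if (p.1 : ℕ) + p.2 = q.1 + q.2 ∧ (q.1 : ℕ) ≤ p.2 then
      (((-1) ^ ((p.2 : ℕ) - q.1) *
        v ^ (((N : ℤ) - 1) * (1 + (q.1 : ℕ) + (q.2 : ℕ)) - 2 * (q.1 : ℕ) * (q.2 : ℕ))) /
        v ^ (((p.2 : ℕ) - q.1) * ((p.2 : ℕ) - q.1 - 1) / 2)) *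
        core N v q.1 q.2 ((p.2 : ℕ) - q.1) else 0 := by
  unfold crossN core
  split_ifs with h
  · rw [Nat.add_sub_cancel' h.2]
    ring
  · rfl

lemma val_neg_one_pow (k : ℕ) : R.valuation ((-1 : F) ^ k) = 1 := by
  rw [map_pow, Valuation.map_neg, map_one, one_pow]

lemma crossP_int (S : Setup R N m v v') (p q : Fin N × Fin N) :
    R.valuation (crossP N v p q) ≤ 1 := by
  rw [crossP_form]
  split_ifs with h
  · refine mul_le' ?_ (core_int S (by have := p.1.2; omega))
    rw [map_mul, val_zpow S.v1, val_pow S.v1, one_mul]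
  · simp

lemma crossN_int (S : Setup R N m v v') (p q : Fin N × Fin N) :
    R.valuation (crossN N v p q) ≤ 1 := by
  rw [crossN_form]
  split_ifs with h
  · refine mul_le' ?_ (core_int S (by have := p.2.2; omega))
    rw [map_div₀, map_mul, val_zpow S.v1, val_pow S.v1, val_neg_one_pow, one_mul, div_one]
  · simp

lemma crossP_lt (S : Setup R N m v v') (p q : Fin N × Fin N)
    (h : ¬ ((p.1 : ℕ) / m = (q.2 : ℕ) / m ∧ (p.2 : ℕ) / m = (q.1 : ℕ) / m)) :
    R.valuation (crossP N v p q) < 1 := by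
  rw [crossP_form]
  split_ifs with h1
  · refine mul_lt' ?_ (core_lt S (by have := p.1.2; omega) (by omega) ?_)
    · rw [map_mul, val_zpow S.v1, val_pow S.v1, one_mul]
    · have e1 : (q.2 : ℕ) + (p.1 - q.2) = p.1 := by omega
      have e2 : (q.1 : ℕ) - (p.1 - q.2) = p.2 := by omega
      rw [e1, e2]
      exact h
  · simp

lemma crossN_lt (S : Setup R N m v v') (p q : Fin N × Fin N)
    (h : ¬ ((p.1 : ℕ) / m = (q.2 : ℕ) / m ∧ (p.2 : ℕ) / m = (q.1 : ℕ) / m)) :
    R.valuation (crossN N v p q) < 1 := by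
  rw [crossN_form]
  split_ifs with h1
  · refine mul_lt' ?_ (core_lt S (by have := p.2.2; omega) (by omega) ?_)
    · rw [map_div₀, map_mul, val_zpow S.v1, val_pow S.v1, val_neg_one_pow, one_mul, div_one]
    · have e1 : (q.1 : ℕ) + (p.2 - q.1) = p.2 := by omega
      have e2 : (q.2 : ℕ) - (p.2 - q.1) = p.1 := by omega
      rw [e1, e2]
      exact fun h2 => h ⟨h2.2, h2.1⟩
  · simp

/-- the embedding of pairs of indices -/
def emb2 (h : m ≤ N) (p : Fin m × Fin m) : Fin N × Fin N := (Fin.castLE h p.1, Fin.castLE h p.2)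

lemma crossP_cg (S : Setup R N m v v') (h : m ≤ N) (p q : Fin m × Fin m) :
    Cg R (crossP N v (emb2 h p) (emb2 h q)) (crossP m v' p q) := by
  rw [crossP_form, crossP_form]
  simp only [emb2, Fin.val_castLE]
  split_ifs with h1
  · refine Cg.mul (Cg.mul ?_ (S.cg.pow _)) (core_cg S (by have := p.1.2; omega))
    exact S.expo _ _
  · exact Cg.rfl' (by simp)

lemma crossN_cg (S : Setup R N m v v') (h : m ≤ N) (p q : Fin m × Fin m) :
    Cg R (crossN N v (emb2 h p) (emb2 h q)) (crossN m v' p q) := by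
  rw [crossN_form, crossN_form]
  simp only [emb2, Fin.val_castLE]
  split_ifs with h1
  · refine Cg.mul (Cg.div (Cg.mul (Cg.rfl' (val_neg_one_pow _).le) ?_) (S.cg.pow _)
      (val_pow S.v1' _)) (core_cg S (by have := p.2.2; omega))
    have h2 := S.expo (-(1 + (q.1 : ℕ) + (q.2 : ℕ))) (-(2 * (q.1 : ℕ) * (q.2 : ℕ)))
    convert h2 using 2 <;> ring
  · exact Cg.rfl' (by simp)

end Pool.Agent.L7h86.KV
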