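import Pool.Agent.L7h86.KV.Arith

set_option autoImplicit false

namespace Pool.Agent.L7h86.KV

open Finset Polynomial

section map

variable {F F' : Type} [Field F] [Field F'] (φ : F →+* F')

lemma map_br (v : F) (k : ℤ) : φ (br v k) = br (φ v) k := by simp [br]

lemma map_brf (v : F) (n : ℕ) : φ (brf v n) = brf (φ v) n := by
  simp only [brf, map_prod, map_br]

lemma map_crossP (N : ℕ) (v : F) (p q : Fin N × Fin N) :
    φ (crossP N v p q) = crossP N (φ v) p q := by
  unfold crossP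
  split_ifs
  · simp only [map_mul, map_zpow₀, map_pow, map_div₀, map_prod, map_brf, map_br]
  · simp

lemma map_crossN (N : ℕ) (v : F) (p q : Fin N × Fin N) :
    φ (crossN N v p q) = crossN N (φ v) p q := by
  unfold crossN
  split_ifs
  · simp only [map_mul, map_zpow₀, map_pow, map_div₀, map_prod, map_brf, map_br, map_neg, map_one]
  · simp

lemma map_gen {ι : Type} [DecidableEq ι] (A : Matrix (ι × ι) (ι × ι) F) (n k : ℕ)
    (s t : Fin n → ι) : φ (gen A n k s t) = gen (fun p q => φ (A p q)) n k s t := by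
  unfold gen
  split_ifs <;> simp

lemma map_rep {ι : Type} [Fintype ι] [DecidableEq ι] (P Q : Matrix (ι × ι) (ι × ι) F) (n : ℕ)
    (w : List (ℕ × Bool)) : ∀ s t : Fin n → ι,
    φ (rep P Q n w s t) = rep (fun p q => φ (P p q)) (fun p q => φ (Q p q)) n w s t := by
  induction w with
  | nil =>
    intro s t
    rw [rep_nil, rep_nil, Matrix.one_apply, Matrix.one_apply]
    split_ifs <;> simp
  | cons g w ih =>
    intro s t
    rw [rep_cons, rep_cons, Matrix.mul_apply, Matrix.mul_apply, map_sum]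
    refine Finset.sum_congr rfl fun u _ => ?_
    rw [map_mul, ih, map_gen]
    congr 1
    cases g.2 <;> rfl

lemma map_cjones (N n : ℕ) (w : List (ℕ × Bool)) (v : F) :
    φ (cjones N n w v) = cjones N n w (φ v) := by
  unfold cjones
  split_ifs with h
  · unfold tail
    rw [map_sum]
    refine Finset.sum_congr rfl fun s _ => ?_
    rw [map_mul, map_rep, map_prod]
    congr 1
    · refine Finset.prod_congr rfl fun x _ => ?_
      rw [map_zpow₀]
    · have e1 : (fun p q => φ (crossP N v p q)) = crossP N (φ v) := by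
        funext p q; exact map_crossP φ N v p q
      have e2 : (fun p q => φ (crossN N v p q)) = crossN N (φ v) := by
        funext p q; exact map_crossN φ N v p q
      rw [e1, e2]
  · simp

end map

lemma IsRootN.prim {m : ℕ} {v : ℂ} (h : IsRootN m v) : IsPrimitiveRoot v (2 * m) := by
  refine ⟨by rw [mul_comm, pow_mul, h.1]; norm_num, fun l hl => ?_⟩
  have h1 : (v ^ 2) ^ l = 1 := by rw [← pow_mul, mul_comm, pow_mul, hl, one_pow]
  obtain ⟨k, rfl⟩ := h.2.dvd_of_pow_eq_one l h1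
  rw [pow_mul, h.1] at hl
  have h2 : Even k := by
    by_contra h3
    rw [Nat.not_even_iff_odd] at h3
    rw [h3.neg_one_pow] at hl
    norm_num at hl
  obtain ⟨d, rfl⟩ := h2
  exact ⟨d, by ring⟩

lemma gal {m : ℕ} (hm : 0 < m) (n : ℕ) (w : List (ℕ × Bool)) {v₁ : ℂ} (h1 : IsRootN m v₁)
    (hne : cjones m n w v₁ ≠ 0) :
    ∃ q : ℤ[X], q.coeff 0 ≠ 0 ∧ ∀ v : ℂ, IsRootN m v → aeval (cjones m n w v) q = 0 := by
  have : NeZero (2 * m) := ⟨by omega⟩
  have : NeZero ((2 * m : ℕ) : ℚ) := ⟨by exact_mod_cast (by omega : 2 * m ≠ 0)⟩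
  have : IsCyclotomicExtension {2 * m} ℚ (CyclotomicField (2 * m) ℚ) :=
    CyclotomicField.isCyclotomicExtension (2 * m) ℚ
  have hζ := IsCyclotomicExtension.zeta_spec (2 * m) ℚ (CyclotomicField (2 * m) ℚ)
  set ζ := IsCyclotomicExtension.zeta (2 * m) ℚ (CyclotomicField (2 * m) ℚ) with hζd
  have hirr : Irreducible (cyclotomic (2 * m) ℚ) := cyclotomic.irreducible_rat (by omega)
  have key : ∀ v : ℂ, IsRootN m v →
      ∃ φ : CyclotomicField (2 * m) ℚ →ₐ[ℚ] ℂ, φ ζ = v := by
    intro v hv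
    have hmem : v ∈ primitiveRoots (2 * m) ℂ := (mem_primitiveRoots (by omega)).2 hv.prim
    refine ⟨(hζ.embeddingsEquivPrimitiveRoots ℂ hirr).symm ⟨v, hmem⟩, ?_⟩
    rw [← hζ.embeddingsEquivPrimitiveRoots_apply_coe ℂ hirr, Equiv.apply_symm_apply]
  set y : CyclotomicField (2 * m) ℚ := cjones m n w ζ with hy
  have key2 : ∀ (φ : CyclotomicField (2 * m) ℚ →ₐ[ℚ] ℂ), φ y = cjones m n w (φ ζ) := by
    intro φ
    exact map_cjones (φ : CyclotomicField (2 * m) ℚ →+* ℂ) m n w ζ
  have hy0 : y ≠ 0 := by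
    intro h0
    obtain ⟨φ, hφ⟩ := key v₁ h1
    have h2 := key2 φ
    rw [h0, map_zero, hφ] at h2
    exact hne h2.symm
  have hyalg : IsAlgebraic ℤ y := (IsFractionRing.isAlgebraic_iff ℤ ℚ _).2
    (Algebra.IsAlgebraic.isAlgebraic y)
  obtain ⟨q, hq0, hq⟩ := hyalg.exists_nonzero_coeff_and_aeval_eq_zero
    (mem_nonZeroDivisors_of_ne_zero hy0)
  refine ⟨q, hq0, fun v hv => ?_⟩
  obtain ⟨φ, hφ⟩ := key v hv
  have h3 := key2 φ
  rw [hφ] at h3
  rw [← h3]
  have h4 := Polynomial.aeval_algHom_apply (φ.restrictScalars ℤ) y q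
  rw [hq, map_zero] at h4
  exact h4

lemma cjones_one (n : ℕ) (w : List (ℕ × Bool)) (v : ℂ) : cjones 1 n w v = 1 := by
  have hP : ∀ p q : Fin 1 × Fin 1, crossP 1 v p q = 1 := by
    intro p q
    have h1 : (p.1 : ℕ) = 0 := by omega
    have h2 : (p.2 : ℕ) = 0 := by omega
    have h3 : (q.1 : ℕ) = 0 := by omega
    have h4 : (q.2 : ℕ) = 0 := by omega
    simp [crossP, brf_zero]
  have hN : ∀ p q : Fin 1 × Fin 1, crossN 1 v p q = 1 := by
    intro p q
    have h1 : (p.1 : ℕ) = 0 := by omega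
    have h2 : (p.2 : ℕ) = 0 := by omega
    have h3 : (q.1 : ℕ) = 0 := by omega
    have h4 : (q.2 : ℕ) = 0 := by omega
    simp [crossN, brf_zero]
  have hg : ∀ (A : Matrix (Fin 1 × Fin 1) (Fin 1 × Fin 1) ℂ) (_ : ∀ p q, A p q = 1) (k l : ℕ)
      (s t : Fin l → Fin 1), gen A l k s t = 1 := by
    intro A hA k l s t
    have hst : s = t := Subsingleton.elim _ _
    subst hst
    unfold gen
    by_cases h : k + 1 < l
    · rw [dif_pos h, if_pos (fun _ _ _ => rfl)]
      exact hA _ _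
    · rw [dif_neg h, if_pos rfl]
  have hr : ∀ (w : List (ℕ × Bool)) (l : ℕ) (s t : Fin l → Fin 1),
      rep (crossP 1 v) (crossN 1 v) l w s t = 1 := by
    intro w l
    induction w with
    | nil =>
      intro s t
      rw [rep_nil, Matrix.one_apply, if_pos (Subsingleton.elim _ _)]
    | cons g w ih =>
      intro s t
      rw [rep_cons, Matrix.mul_apply, Fintype.sum_subsingleton _ s, ih, mul_one]
      refine hg _ ?_ _ _ _ _
      intro p q
      cases g.2
      · simpa using hN p q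
      · simpa using hP p q
  unfold cjones tail
  rw [dif_pos Nat.one_pos, Fintype.sum_subsingleton _ (fun _ => 0), hr, mul_one]
  refine Finset.prod_eq_one fun x _ => ?_
  simp

/-- `v_N = exp (π i / N)` -/
noncomputable def root (N : ℕ) : ℂ := Complex.exp (Real.pi * Complex.I / N)

/-- the Kashaev invariant of the closure of the braid `w` on `n + 1` strands -/
noncomputable def kashaev (n : ℕ) (w : List (ℕ × Bool)) (N : ℕ) : ℂ := cjones N n w (root N)

lemma root_isRootN {N : ℕ} (hN : 0 < N) : IsRootN N (root N) := by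
  have hN' : (N : ℂ) ≠ 0 := by exact_mod_cast hN.ne'
  constructor
  · unfold root
    rw [← Complex.exp_nat_mul, mul_div_cancel₀ _ hN', Complex.exp_pi_mul_I]
  · have h1 : root N ^ 2 = Complex.exp (2 * Real.pi * Complex.I / N) := by
      unfold root
      rw [← Complex.exp_nat_mul]
      congr 1
      push_cast
      ring
    rw [h1]
    exact Complex.isPrimitiveRoot_exp N hN.ne'

lemma val_aeval {R : ValuationSubring ℂ} {x : ℂ} (hx : R.valuation x ≤ 1) (q : ℤ[X]) :
    R.valuation (aeval x q) ≤ 1 := by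
  rw [aeval_eq_sum_range]
  refine sum_int fun i _ => ?_
  rw [zsmul_eq_mul]
  refine mul_le' (val_int _) ?_
  rw [map_pow]
  exact pow_le_one' hx i

theorem main (n : ℕ) (w : List (ℕ × Bool)) (hk : IsKnot n w) :
    (∀ N : ℕ, IsPrimePow N → kashaev n w N ≠ 0) ∧
    (∀ m : ℕ, 0 < m → kashaev n w m ≠ 0 → ∃ B : ℕ, ∀ p : ℕ, p.Prime → B ≤ p →
      ∀ r : ℕ, kashaev n w (p ^ r * m) ≠ 0) ∧
    (∀ p m r : ℕ, p.Prime → 0 < m → ¬ p ∣ m → ∃ b : ℕ, b.Coprime (2 * m) ∧
      ∀ R : ValuationSubring ℂ, R.valuation (p : ℂ) < 1 →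
        R.valuation (kashaev n w (p ^ r * m)) ≤ 1 ∧
        R.valuation (kashaev n w (p ^ r * m) - cjones m n w (root m ^ b)) < 1) := by
  refine ⟨?_, ?_, ?_⟩
  · intro N hN h0
    obtain ⟨p, r, hp, hr, rfl⟩ := hN
    have hp' : p.Prime := hp.nat_prime
    have hv : IsRootN (p ^ r * 1) (root (p ^ r)) := by
      rw [mul_one]; exact root_isRootN (pow_pos hp'.pos r)
    obtain ⟨c, _, _, h3⟩ := congruence hp' (fun h => hp'.one_lt.ne' (Nat.dvd_one.1 h)) one_pos hv
      n w hk
    obtain ⟨R, hR⟩ := exists_val p hp'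
    have h4 := h3 R hR
    rw [cjones_one, mul_one] at h4
    unfold kashaev at h0
    rw [h0] at h4
    have h5 := h4.symm.lt
    rw [map_one] at h5
    exact lt_irrefl _ h5
  · intro m hm hne
    obtain ⟨q, hq0, hq⟩ := gal hm n w (root_isRootN hm) hne
    refine ⟨(q.coeff 0).natAbs + m + 1, fun p hp hB r h0 => ?_⟩
    have hpm : ¬ p ∣ m := fun h => by
      have := Nat.le_of_dvd hm h
      omega
    obtain ⟨c, h1, _, h3⟩ := congruence hp hpm hm
      (root_isRootN (Nat.mul_pos (pow_pos hp.pos r) hm)) n w hk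
    obtain ⟨R, hR⟩ := exists_val p hp
    have h4 := h3 R hR
    unfold kashaev at h0
    rw [h0] at h4
    have h5 := h4.symm.lt
    have h6 := hq _ h1
    rw [← divX_mul_X_add q, map_add, map_mul, aeval_X, aeval_C] at h6
    have h7 : R.valuation ((q.coeff 0 : ℤ) : ℂ) < 1 := by
      have h8 : ((q.coeff 0 : ℤ) : ℂ) = -(aeval (cjones m n w (root (p ^ r * m) ^ c)) q.divX *
          cjones m n w (root (p ^ r * m) ^ c)) := by
        have h9 : algebraMap ℤ ℂ (q.coeff 0) = ((q.coeff 0 : ℤ) : ℂ) := by simp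
        rw [h9] at h6
        linear_combination h6
      rw [h8, Valuation.map_neg]
      exact mul_lt' (val_aeval h5.le _) h5
    have h10 := dvd_of_val hp hR _ h7
    have h11 : p ∣ (q.coeff 0).natAbs := by
      exact Int.natCast_dvd.1 h10
    have := Nat.le_of_dvd (Int.natAbs_pos.2 hq0) h11
    omega
  · intro p m r hp hm hpm
    obtain ⟨c, h1, _, h3⟩ := congruence hp hpm hm
      (root_isRootN (Nat.mul_pos (pow_pos hp.pos r) hm)) n w hk
    have : NeZero (2 * m) := ⟨by omega⟩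
    obtain ⟨b, _, hb, hb'⟩ := (root_isRootN hm).prim.isPrimitiveRoot_iff.1 h1.prim
    refine ⟨b, hb, fun R hR => ?_⟩
    rw [hb']
    exact ⟨(h3 R hR).1, (h3 R hR).2.2⟩

end Pool.Agent.L7h86.KV
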