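import Pool.Agent.L7h86.KV.Cross

set_option autoImplicit false

namespace Pool.Agent.L7h86.KV

open Finset

variable {F : Type} [Field F] {R : ValuationSubring F} {N m : ℕ} {v v' : F}

/-- what is used of the crossings -/
structure CrossOK (R : ValuationSubring F) (h : m ≤ N) (A : Matrix (Fin N × Fin N) (Fin N × Fin N) F)
    (A' : Matrix (Fin m × Fin m) (Fin m × Fin m) F) : Prop where
  int : ∀ p q, R.valuation (A p q) ≤ 1
  lt : ∀ p q, ¬ ((p.1 : ℕ) / m = (q.2 : ℕ) / m ∧ (p.2 : ℕ) / m = (q.1 : ℕ) / m) →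
    R.valuation (A p q) < 1
  cg : ∀ p q, Cg R (A (emb2 h p) (emb2 h q)) (A' p q)

lemma okP (S : Setup R N m v v') (h : m ≤ N) : CrossOK R h (crossP N v) (crossP m v') :=
  ⟨crossP_int S, crossP_lt S, crossP_cg S h⟩

lemma okN (S : Setup R N m v v') (h : m ≤ N) : CrossOK R h (crossN N v) (crossN m v') :=
  ⟨crossN_int S, crossN_lt S, crossN_cg S h⟩

/-- the embedding of states -/
def es {n : ℕ} (h : m ≤ N) (s : Fin n → Fin m) : Fin n → Fin N := fun x => Fin.castLE h (s x)

lemma es_inj {n : ℕ} (h : m ≤ N) : Function.Injective (es (n := n) h) := by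
  intro s t hst
  funext x
  have := congrFun hst x
  exact Fin.castLE_injective h this

lemma mem_es {n : ℕ} (hm : 0 < m) (h : m ≤ N) (u : Fin n → Fin N)
    (hu : ∀ x, (u x : ℕ) / m = 0) : ∃ u' : Fin n → Fin m, es h u' = u := by
  refine ⟨fun x => ⟨u x, ?_⟩, ?_⟩
  · exact (Nat.div_eq_zero_iff_lt hm).1 (hu x)
  · funext x
    rfl

variable {h : m ≤ N} {A : Matrix (Fin N × Fin N) (Fin N × Fin N) F}
  {A' : Matrix (Fin m × Fin m) (Fin m × Fin m) F}

lemma gen_int (H : CrossOK R h A A') (n k : ℕ) (s t : Fin n → Fin N) :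
    R.valuation (gen A n k s t) ≤ 1 := by
  unfold gen
  split_ifs
  · exact H.int _ _
  · simp
  · simp
  · simp

lemma gen_lt (H : CrossOK R h A A') (n k : ℕ) (s t : Fin n → Fin N)
    (hst : ¬ ∀ x, (s (swapk n k x) : ℕ) / m = (t x : ℕ) / m) :
    R.valuation (gen A n k s t) < 1 := by
  unfold gen
  split_ifs with h1 h2 h3
  · refine H.lt _ _ fun h4 => hst fun x => ?_
    obtain ⟨h4, h5⟩ := h4
    simp only at h4 h5
    unfold swapk
    rw [dif_pos h1]
    by_cases hx : x = ⟨k, by omega⟩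
    · subst hx
      rw [Equiv.swap_apply_left]
      exact h5
    by_cases hx' : x = ⟨k + 1, h1⟩
    · subst hx'
      rw [Equiv.swap_apply_right]
      exact h4
    rw [Equiv.swap_apply_of_ne_of_ne hx hx', h2 x (fun h6 => hx (Fin.ext h6))
      (fun h6 => hx' (Fin.ext h6))]
  · simp
  · exfalso
    apply hst
    intro x
    unfold swapk
    rw [dif_neg h1, h3]
    rfl
  · simp

lemma gen_cg (H : CrossOK R h A A') (n k : ℕ) (s t : Fin n → Fin m) :
    Cg R (gen A n k (es h s) (es h t)) (gen A' n k s t) := by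
  unfold gen
  by_cases h1 : k + 1 < n
  · rw [dif_pos h1, dif_pos h1]
    by_cases h2 : ∀ j : Fin n, (j : ℕ) ≠ k → (j : ℕ) ≠ k + 1 → s j = t j
    · have h3 : ∀ j : Fin n, (j : ℕ) ≠ k → (j : ℕ) ≠ k + 1 → es h s j = es h t j :=
        fun j hj hj' => congrArg (Fin.castLE h) (h2 j hj hj')
      rw [if_pos h2, if_pos h3]
      exact H.cg (s ⟨k, by omega⟩, s ⟨k + 1, h1⟩) (t ⟨k, by omega⟩, t ⟨k + 1, h1⟩)
    · have h3 : ¬ ∀ j : Fin n, (j : ℕ) ≠ k → (j : ℕ) ≠ k + 1 → es h s j = es h t j :=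
        fun h4 => h2 fun j hj hj' => Fin.castLE_injective h (h4 j hj hj')
      rw [if_neg h2, if_neg h3]
      exact Cg.rfl' (by simp)
  · rw [dif_neg h1, dif_neg h1]
    by_cases h2 : s = t
    · rw [if_pos h2, if_pos (congrArg (es h) h2)]
      exact Cg.rfl' (by simp)
    · rw [if_neg h2, if_neg (fun h3 => h2 (es_inj h h3))]
      exact Cg.rfl' (by simp)

lemma sum_int {ι : Type} {s : Finset ι} {f : ι → F} (hf : ∀ i ∈ s, R.valuation (f i) ≤ 1) :
    R.valuation (∑ i ∈ s, f i) ≤ 1 :=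
  (Cg.sum (R := R) (f := f) (g := f) fun i hi => Cg.rfl' (hf i hi)).1

lemma sum_lt {ι : Type} {s : Finset ι} {f : ι → F} (hf : ∀ i ∈ s, R.valuation (f i) < 1) :
    R.valuation (∑ i ∈ s, f i) < 1 := by
  have h1 := Cg.sum (R := R) (f := f) (g := fun _ => 0) fun i hi => Cg.zero (hf i hi)
  rw [Finset.sum_const_zero] at h1
  exact h1.lt

lemma sum_restrict {n : ℕ} (hm : 0 < m) (h : m ≤ N) (f : (Fin n → Fin N) → F)
    (g : (Fin n → Fin m) → F)
    (h1 : ∀ u, (¬ ∀ x, (u x : ℕ) / m = 0) → R.valuation (f u) < 1)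
    (h2 : ∀ u, Cg R (f (es h u)) (g u)) :
    Cg R (∑ u, f u) (∑ u, g u) := by
  classical
  rw [← Finset.sum_add_sum_compl (Finset.univ.image (es (n := n) h)) f,
    Finset.sum_image fun a _ b _ hab => es_inj h hab, ← add_zero (∑ u, g u)]
  refine (Cg.sum fun u _ => h2 u).add (Cg.zero (sum_lt fun u hu => h1 u fun h3 => ?_))
  rw [Finset.mem_compl] at hu
  obtain ⟨u', hu'⟩ := mem_es hm h u h3
  exact hu (Finset.mem_image.2 ⟨u', Finset.mem_univ _, hu'⟩)

variable {B : Matrix (Fin N × Fin N) (Fin N × Fin N) F}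
  {B' : Matrix (Fin m × Fin m) (Fin m × Fin m) F}

lemma rep_nil {ι : Type} [Fintype ι] [DecidableEq ι] (P Q : Matrix (ι × ι) (ι × ι) F) (n : ℕ) :
    rep P Q n [] = 1 := rfl

lemma rep_cons {ι : Type} [Fintype ι] [DecidableEq ι] (P Q : Matrix (ι × ι) (ι × ι) F) (n : ℕ)
    (g : ℕ × Bool) (w : List (ℕ × Bool)) :
    rep P Q n (g :: w) = gen (if g.2 then P else Q) n g.1 * rep P Q n w := by
  unfold rep
  rw [List.map_cons, List.prod_cons]

lemma perm_cons (n : ℕ) (g : ℕ × Bool) (w : List (ℕ × Bool)) :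
    perm n (g :: w) = swapk n g.1 * perm n w := by
  unfold perm
  rw [List.map_cons, List.prod_cons]

lemma okI (HA : CrossOK R h A A') (HB : CrossOK R h B B') (b : Bool) :
    CrossOK R h (if b then A else B) (if b then A' else B') := by
  cases b
  · simpa using HB
  · simpa using HA

lemma rep_int (HA : CrossOK R h A A') (HB : CrossOK R h B B') (n : ℕ) (w : List (ℕ × Bool)) :
    ∀ s t : Fin n → Fin N, R.valuation (rep A B n w s t) ≤ 1 := by
  induction w with
  | nil =>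
    intro s t
    rw [rep_nil, Matrix.one_apply]
    split_ifs <;> simp
  | cons g w ih =>
    intro s t
    rw [rep_cons, Matrix.mul_apply]
    exact sum_int fun u _ => mul_le' (gen_int (okI HA HB g.2) n g.1 s u) (ih u t)

lemma rep_lt (HA : CrossOK R h A A') (HB : CrossOK R h B B') (n : ℕ) (w : List (ℕ × Bool)) :
    ∀ s t : Fin n → Fin N, (¬ ∀ x, (s (perm n w x) : ℕ) / m = (t x : ℕ) / m) →
      R.valuation (rep A B n w s t) < 1 := by
  induction w with
  | nil =>
    intro s t hst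
    rw [rep_nil, Matrix.one_apply, if_neg]
    · simp
    · rintro rfl
      exact hst fun x => rfl
  | cons g w ih =>
    intro s t hst
    rw [rep_cons, Matrix.mul_apply]
    refine sum_lt fun u _ => ?_
    by_cases h1 : ∀ x, (s (swapk n g.1 x) : ℕ) / m = (u x : ℕ) / m
    · refine mul_lt' (gen_int (okI HA HB g.2) n g.1 s u) (ih u t fun h2 => hst fun x => ?_)
      rw [perm_cons, Equiv.Perm.mul_apply, h1, h2]
    · rw [mul_comm]
      exact mul_lt' (rep_int HA HB n w u t) (gen_lt (okI HA HB g.2) n g.1 s u h1)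

lemma rep_cg (hm : 0 < m) (HA : CrossOK R h A A') (HB : CrossOK R h B B') (n : ℕ)
    (w : List (ℕ × Bool)) :
    ∀ s t : Fin n → Fin m, Cg R (rep A B n w (es h s) (es h t)) (rep A' B' n w s t) := by
  induction w with
  | nil =>
    intro s t
    rw [rep_nil, rep_nil, Matrix.one_apply, Matrix.one_apply]
    by_cases h2 : s = t
    · rw [if_pos h2, if_pos (congrArg (es h) h2)]
      exact Cg.rfl' (by simp)
    · rw [if_neg h2, if_neg (fun h3 => h2 (es_inj h h3))]
      exact Cg.rfl' (by simp)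
  | cons g w ih =>
    intro s t
    rw [rep_cons, rep_cons, Matrix.mul_apply, Matrix.mul_apply]
    refine sum_restrict hm h _ _ (fun u hu => ?_) fun u => ?_
    · refine mul_lt' (gen_int (okI HA HB g.2) n g.1 _ u) (rep_lt HA HB n w u _ fun h2 => hu ?_)
      intro x
      have h3 := h2 ((perm n w).symm x)
      rw [Equiv.apply_symm_apply] at h3
      rw [h3]
      exact Nat.div_eq_of_lt (by simp [es])
    · exact (gen_cg (okI HA HB g.2) n g.1 s u).mul (ih u t)

theorem cjones_cg (S : Setup R N m v v') (n : ℕ) (w : List (ℕ × Bool)) (hk : IsKnot n w) :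
    Cg R (cjones N n w v) (cjones m n w v') := by
  have hm := S.hm
  have h : m ≤ N := Nat.le_of_dvd S.hN S.dvd
  have HA := okP S h
  have HB := okN S h
  unfold cjones
  rw [dif_pos S.hN, dif_pos S.hm]
  unfold tail
  refine sum_restrict hm h _ _ (fun u hu => ?_) fun u => ?_
  · refine mul_lt' (prod_le fun x _ => (val_zpow S.v1 _).le)
      (rep_lt HA HB _ w _ _ fun h2 => hu ?_)
    have h3 : ∀ (k : ℕ) (x : Fin (n + 1)), ((Fin.cons ⟨0, S.hN⟩ u : Fin (n + 1) → Fin N)
        ((perm (n + 1) w ^ k) x) : ℕ) / m =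
        ((Fin.cons ⟨0, S.hN⟩ u : Fin (n + 1) → Fin N) x : ℕ) / m := by
      intro k
      induction k with
      | zero => intro x; rfl
      | succ k ih =>
        intro x
        rw [pow_succ', Equiv.Perm.mul_apply, h2, ih]
    intro x
    obtain ⟨k, hk'⟩ := hk x.succ
    have h4 := h3 k 0
    rw [hk', Fin.cons_succ, Fin.cons_zero] at h4
    rw [h4]
    simp
  · have h5 : (Fin.cons ⟨0, S.hN⟩ (es h u) : Fin (n + 1) → Fin N) =
        es h (Fin.cons ⟨0, S.hm⟩ u) := by
      funext x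
      refine Fin.cases ?_ (fun y => ?_) x
      · rfl
      · rfl
    rw [h5]
    refine Cg.mul (Cg.prod fun x _ => ?_) (rep_cg hm HA HB _ w _ _)
    have h6 := S.expo (-1) (-(2 * ((u x : ℕ) : ℤ)))
    have e1 : (N : ℤ) - 1 - 2 * ((es h u x : Fin N) : ℕ) =
        -((N : ℤ) - 1) * (-1) + -(2 * ((u x : ℕ) : ℤ)) := by
      simp only [es, Fin.val_castLE]
      ring
    have e2 : (m : ℤ) - 1 - 2 * ((u x : ℕ) : ℤ) =
        -((m : ℤ) - 1) * (-1) + -(2 * ((u x : ℕ) : ℤ)) := by ring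
    show Cg R (v ^ ((N : ℤ) - 1 - 2 * ((es h u x : Fin N) : ℕ)))
      (v' ^ ((m : ℤ) - 1 - 2 * ((u x : ℕ) : ℤ)))
    rw [e1, e2]
    exact h6

end Pool.Agent.L7h86.KV
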