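import Pool.Agent.L7h86.KV.Gal

/-!
# Nonvanishing of the Kashaev invariants of all knots at infinitely many odd roots of unity

Q1 contains the claim that `a_N = J_N(K; e^(2 π i / N))` is not zero for all large odd `N`. We prove
for EVERY knot that `a_N ≠ 0` for every prime power `N`, and that `a_m ≠ 0` implies
`a_(p^r m) ≠ 0` for all `r` and all but finitely many primes `p`. Both follow from a congruence
between `a_(p^r m)` and a conjugate of `a_m` modulo the primes above `p`.

The coloured Jones polynomial `cjones N n w v` of the closure of a braid word `w` on `n + 1` strands
is defined from the R-matrix of `U_q(sl_2)`, with `v = q^{1/2}`, as in the starting file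
`TurkHeadOdd`; see `Pool/Agent/L7h86/KV/Core.lean`. `IsKnot n w` says that the permutation of the
braid has only one cycle.

Proof. Let `N = p^r m`, `p` prime, not dividing `m`, and write the indices of the basis of `V_N` as
`i = a + m b` with `a < m`. Modulo a prime above `p` the number `v^2` is a root of unity of order `m`,
and the entry of the crossing at `(p, q)` vanishes unless the parts `b` are just exchanged; on the
vectors with `b = 0` the crossing is that of colour `m`. If the closure is a knot and the first
strand has the state `e_0`, then the parts `b` of all strands vanish in every nonzero term of the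
state sum.
-/

set_option autoImplicit false

namespace Pool.Agent.L7h86.KV.Result

open Pool.Agent.L7h86.KV

/-- Let the closure of the braid word `w` on `n + 1` strands be a knot, and let
`kashaev n w N = cjones N n w (root N)`, `root N = exp (π i / N)`, be its Kashaev invariant, the
value of its `N`-coloured Jones polynomial at `q = exp (2 π i / N)`.
(1) It is not zero if `N` is a prime power.
(2) If it is not zero for `N = m` then for all sufficiently large primes `p` and all `r` it is not
zero for `N = p ^ r * m`.
(3) For every prime `p`, every `m > 0` not divisible by `p` and every `r` there is `b` prime to `2 m`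
such that for every valuation subring `R` of the complex numbers with `p` in its maximal ideal the
Kashaev invariant for `N = p ^ r * m` is in `R`, and it is congruent modulo the maximal ideal of `R` to
the value of the `m`-coloured Jones polynomial at `v = exp (π i b / m)`, a Galois conjugate of the
Kashaev invariant for `N = m`. -/
theorem result (n : ℕ) (w : List (ℕ × Bool)) (hk : IsKnot n w) :
    (∀ N : ℕ, IsPrimePow N → kashaev n w N ≠ 0) ∧
    (∀ m : ℕ, 0 < m → kashaev n w m ≠ 0 → ∃ B : ℕ, ∀ p : ℕ, p.Prime → B ≤ p →
      ∀ r : ℕ, kashaev n w (p ^ r * m) ≠ 0) ∧
    (∀ p m r : ℕ, p.Prime → 0 < m → ¬ p ∣ m → ∃ b : ℕ, b.Coprime (2 * m) ∧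
      ∀ R : ValuationSubring ℂ, R.valuation (p : ℂ) < 1 →
        R.valuation (kashaev n w (p ^ r * m)) ≤ 1 ∧
        R.valuation (kashaev n w (p ^ r * m) - cjones m n w (root m ^ b)) < 1) :=
  main n w hk

end Pool.Agent.L7h86.KV.Result
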